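import Pool.Agent.helper78.HFN.Spec

/-! Row hfn:UPA (helper50): multiplication by `B`. -/

set_option autoImplicit false

open Polynomial Module

namespace Pool.Agent.HFN

noncomputable section

theorem UPA_hd (hRES : RES_stmt) (Z : Finset (ℂ × ℂ)) (B : AA) (i j M N : ℕ) (hB : B ≠ 0) (hi : dX B + M = i)
    (hj : dY B + N = j) : hd (JJ Z (res two B)) M N ≤ hd (JJ Z two) i j := by
  have hmap : ∀ g ∈ (V M N ⊓ (JJ Z (res two B)).restrictScalars ℂ : Submodule ℂ AA),
      LinearMap.mulLeft ℂ B g ∈ (V i j ⊓ (JJ Z two).restrictScalars ℂ : Submodule ℂ AA) := by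
    intro g hg
    obtain ⟨h1, h2⟩ := Submodule.mem_inf.1 hg
    refine Submodule.mem_inf.2 ⟨?_, ?_⟩
    · have h3 : B * g ∈ V (dX B + M) (dY B + N) := mul_mem_V (mem_V.2 ⟨le_refl _, le_refl _⟩) h1
      rw [hi, hj] at h3
      exact h3
    · have h3 : g ∈ JJ Z (res two B) := h2
      show B * g ∈ JJ Z two
      rw [mem_JJ] at h3 ⊢
      intro z hz
      exact (hRES (two z) z B g (le_refl 2)).2 (h3 z hz)
  unfold hd
  refine LinearMap.finrank_le_finrank_of_injective (f := (LinearMap.mulLeft ℂ B).restrict hmap) ?_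
  intro x y hxy
  have h1 := congrArg Subtype.val hxy
  have h2 : B * (x : AA) = B * (y : AA) := h1
  exact Subtype.ext (mul_left_cancel₀ hB h2)

theorem UPA (hDIM : DIM_stmt) (hRES : RES_stmt) : UPA_stmt := by
  intro Z B i j hB hi hj
  have h1 := (hDIM Z (res two B) (fun z => Nat.sub_le 2 _) (i - dX B) (j - dY B)).1
  have h2 := UPA_hd hRES Z B i j (i - dX B) (j - dY B) hB (by omega) (by omega)
  have h3 : i + 1 - dX B = (i - dX B) + 1 := by omega
  have h4 : j + 1 - dY B = (j - dY B) + 1 := by omega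
  rw [h3, h4]
  omega

end

end Pool.Agent.HFN
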